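import Pool.Agent.Y305.WD.Stm

/-! WD-WC: bounded regular families in `C(K)`, `K` countable compact, lie in weakly compact sets. -/

set_option autoImplicit false

open Filter Topology Set
open Pool.Agent.H86R3 Pool.Agent.H86R3.Wnc Pool.Agent.Y305.WD

namespace Pool.Agent.Y291.WD

universe u

theorem wc (hD : S_DCT.{u}) : S_WC.{u} := by
  intro K _ _ _ _ ι b M hM hR
  classical
  obtain ⟨M', hM'0, hM'⟩ : ∃ M' : ℝ, 0 ≤ M' ∧ ∀ i, ‖b i‖ ≤ M' :=
    ⟨max M 0, le_max_right _ _, fun i => (hM i).trans (le_max_left _ _)⟩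
  set Z : Set (K → ℂ) := closure (Set.range (fun i => (b i : K → ℂ))) with hZdef
  -- the elements of `Z` are continuous
  have hZc : ∀ h : Z, ∃ g : C(K, ℂ), ∀ x, g x = (h : K → ℂ) x := by
    rintro ⟨h, hh⟩
    obtain ⟨V, hV, hVh⟩ := mem_closure_iff_ultrafilter.1 hh
    have hne : (comap (fun i => (b i : K → ℂ)) (V : Filter (K → ℂ))).NeBot :=
      NeBot.comap_of_range_mem V.neBot hV
    have hle : ((Ultrafilter.of (comap (fun i => (b i : K → ℂ)) (V : Filter (K → ℂ))) :
        Ultrafilter ι) : Filter ι) ≤ comap (fun i => (b i : K → ℂ)) (V : Filter (K → ℂ)) :=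
      Ultrafilter.of_le _
    obtain ⟨g, hg⟩ := hR (Ultrafilter.of (comap (fun i => (b i : K → ℂ)) (V : Filter (K → ℂ))))
    refine ⟨g, fun x => ?_⟩
    have h1 : Tendsto (fun i => (b i : K → ℂ))
        (Ultrafilter.of (comap (fun i => (b i : K → ℂ)) (V : Filter (K → ℂ))) : Filter ι)
        (𝓝 h) := (tendsto_comap.mono_left hle).mono_right hVh
    exact tendsto_nhds_unique (hg x) ((tendsto_pi_nhds.1 h1) x)
  choose Θ hΘ using hZc
  -- bounds
  have hZs : Z ⊆ Set.pi Set.univ (fun _ : K => Metric.closedBall (0 : ℂ) M') := by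
    refine closure_minimal ?_ (isClosed_set_pi fun x _ => Metric.isClosed_closedBall)
    rintro _ ⟨i, rfl⟩ x _
    rw [mem_closedBall_zero_iff]
    exact ((b i).norm_coe_le_norm x).trans (hM' i)
  have hZk : IsCompact Z :=
    (isCompact_univ_pi fun x : K => isCompact_closedBall (0 : ℂ) M').of_isClosed_subset
      isClosed_closure hZs
  have hnorm : ∀ h : Z, ‖Θ h‖ ≤ M' := by
    intro h
    rw [ContinuousMap.norm_le _ hM'0]
    intro x
    rw [hΘ h x]
    have := hZs h.2 x (Set.mem_univ x)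
    rwa [mem_closedBall_zero_iff] at this
  -- continuity
  have hcont : Continuous (fun h : Z => toWeakSpace ℂ C(K, ℂ) (Θ h)) := by
    refine WeakBilin.continuous_of_continuous_eval _ (fun φ => ?_)
    apply SeqContinuous.continuous
    intro x a hx
    refine hD K (fun n => Θ (x n)) (Θ a) M' (fun n => hnorm _) (fun y => ?_) φ
    simp only [hΘ]
    exact (tendsto_pi_nhds.1 (tendsto_subtype_rng.1 hx)) y
  refine ⟨Set.range Θ, ?_, fun i => ?_⟩
  · change IsCompact (toWeakSpace ℂ C(K, ℂ) '' Set.range Θ)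
    rw [← Set.range_comp]
    have : CompactSpace Z := isCompact_iff_compactSpace.1 hZk
    exact isCompact_range hcont
  · refine ⟨⟨(b i : K → ℂ), subset_closure ⟨i, rfl⟩⟩, ?_⟩
    ext x
    rw [hΘ]

end Pool.Agent.Y291.WD
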